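import Pool.Agent.LUB.Stmts

set_option autoImplicit false

open Polynomial

namespace Pool.Agent.LUB.H25

theorem unp : UnpStmt := by
  intro hU p _ r F u hF hu
  choose M hM a b hab using fun i => hU p F (u i) hF (hu i)
  refine ⟨∏ i, M i, Finset.prod_pos fun i _ => hM i, fun i => ?_⟩
  obtain ⟨k, hk⟩ := Finset.dvd_prod_of_mem M (Finset.mem_univ i)
  obtain ⟨c, hc⟩ := sub_dvd_pow_sub_pow (u i ^ M i) 1 k
  rw [one_pow, ← pow_mul, ← hk] at hc
  refine ⟨a i * c, b i * c, ?_⟩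
  have h1 := hab i
  have h2 : u i ^ ∏ i, M i = 1 + (u i ^ M i - 1) * c := by rw [← hc]; ring
  rw [h2, h1]
  ring

end Pool.Agent.LUB.H25
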